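import Pool.Agent.Lib_helper3.AU.ST

/-!
# Integrality of rational Stark elements for abelian `p`-extensions
-/

namespace Pool.Agent.Results.MP_dd9835_nt.StarkIntegrality

open Pool.Agent.RSK Pool.Agent.AU NumberField IsDedekindDomain

/-- Let `H/F` be an abelian extension of number fields of `p`-power degree. For every rational
Stark element `u ∈ ℚ ⊗ ⋀^r U_{S,T}`, the element `q ^ κ u` lies in Rubin's lattice locally at the
prime `q`
* for `q = p`, under `CondP`, a lower bound for the number of places above `S` and the class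
  numbers in the layers of `H/F`, or if `#G` divides `p ^ κ`;
* for `q ≠ p`, if `q` generates `(ℤ / exp G)ˣ`. -/
theorem result {F H : Type} [Field F] [NumberField F] [Field H] [NumberField H] [Algebra F H]
    [IsGalois F H] {G : Type} [CommGroup G] [Fintype G] (ι : G ≃* (H ≃ₐ[F] H))
    (S T : Finset (HeightOneSpectrum (𝓞 F))) {r : ℕ} (w : Fin r → Pl H)
    (fr : HeightOneSpectrum (𝓞 F) → G) (hD : Data ι S T r w fr)
    {p : ℕ} (hp : p.Prime) (hG : IsPGroup p G) {q κ : ℕ} (hq : q.Prime)
    (hpq : (q = p ∧ (CondP p κ ι S T w ∨ Nat.card G ∣ p ^ κ)) ∨ (q ≠ p ∧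
      ∀ x : (ZMod (Monoid.exponent G))ˣ, ∃ i : ℕ, (q : ZMod (Monoid.exponent G)) ^ i = x)) :
    StarkInt q κ ι S T w fr :=
  st_final ι S T w fr hD hp hG hq hpq

end Pool.Agent.Results.MP_dd9835_nt.StarkIntegrality
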