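import Pool.Agent.Lib_helper15.STB.F.Far

/-!
# Steinhaus' inequality between the sphericity of a convex body and the circularity of its plane
sections, for all bodies far from round
-/

namespace Pool.Agent.Results.MP_34631e_gt.FarFromRound

open MeasureTheory Pool.Agent.Lib_helper15.STE

/-- If the width of the convex body `K` in some direction is at most `1/4000` of its diameter then
`V² / S³ > (4π/9) (inf A / L²)²`. -/
theorem result (K : Set E3) (hc : Convex ℝ K) (hk : IsCompact K) (hi : (interior K).Nonempty)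
    (x y n : E3) (hx : x ∈ K) (hy : y ∈ K) (hn : ‖n‖ = 1)
    (h : ∀ z ∈ K, ∀ z' ∈ K, 4000 * inner ℝ (z - z') n ≤ ‖x - y‖) :
    4 * Real.pi / 9 * (sInf (iot K)) ^ 2 < (volume K).toReal ^ 2 / (bd K).toReal ^ 3 :=
  STB.far_main K ⟨hc, hk, hi⟩ x y n hx hy hn h

end Pool.Agent.Results.MP_34631e_gt.FarFromRound
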