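import Pool.Agent.Lib_helper15.STE.F.Top

/-!
# Steinhaus' inequality between the sphericity of a convex body and the circularity of its plane
sections, for all convex bodies near a ball
-/

namespace Pool.Agent.Results.MP_34631e_gt.NearBall

open MeasureTheory Pool.Agent.Lib_helper15.STE

/-- There is `η > 0` such that every convex body `K` in `ℝ³` with
`B(c, (1 - η) r) ⊆ K ⊆ B(c, (1 + η) r)` for some `c` and `r > 0` satisfies Steinhaus' inequality
`V² / S³ ≥ (4π/9) (inf A / L²)²`, with equality only if `K` is a ball. -/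
theorem result : ∃ η : ℝ, 0 < η ∧ ∀ K : Set E3, Convex ℝ K → IsCompact K →
    ∀ (c : E3) (r : ℝ), 0 < r →
      Metric.closedBall c ((1 - η) * r) ⊆ K → K ⊆ Metric.closedBall c ((1 + η) * r) →
      4 * Real.pi / 9 * (sInf (iot K)) ^ 2 ≤ (volume K).toReal ^ 2 / (bd K).toReal ^ 3 ∧
      (4 * Real.pi / 9 * (sInf (iot K)) ^ 2 = (volume K).toReal ^ 2 / (bd K).toReal ^ 3 →
        ∃ (c' : E3) (r' : ℝ), 0 < r' ∧ K = Metric.closedBall c' r') :=
  ste_main

end Pool.Agent.Results.MP_34631e_gt.NearBall
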