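import Pool.Agent.Lib_helper59.REVF.Top

/-!
# Steinhaus' inequality between the sphericity of a convex body and the circularity of its plane
sections, for all convex bodies of revolution
-/

namespace Pool.Agent.Results.MP_34631e_gt.Revolution

open MeasureTheory Pool.Agent.Lib_helper59.REV

/-- `K` is a body of revolution about the line through `c` with direction `v`: with a point `x` it
contains every point `y` of the same height along `v` and the same distance from `c`. -/
def IsRevolution (c v : E3) (K : Set E3) : Prop :=
  ∀ x y : E3, inner ℝ v (x - c) = inner ℝ v (y - c) → ‖x - c‖ = ‖y - c‖ → x ∈ K → y ∈ K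

/-- Every convex body of revolution `K` in `ℝ³` satisfies Steinhaus' inequality
`V² / S³ ≥ (4π/9) (inf A / L²)²`, with equality only if `K` is a ball. -/
theorem result (K : Set E3) (hc : Convex ℝ K) (hk : IsCompact K) (hi : (interior K).Nonempty)
    (c v : E3) (hv : v ≠ 0) (hr : IsRevolution c v K) :
    4 * Real.pi / 9 * sInf (iot K) ^ 2 ≤ (volume K).toReal ^ 2 / (bd K).toReal ^ 3 ∧
    (4 * Real.pi / 9 * sInf (iot K) ^ 2 = (volume K).toReal ^ 2 / (bd K).toReal ^ 3 →
      ∃ (x : E3) (r : ℝ), 0 < r ∧ K = Metric.closedBall x r) :=
  top_main K hc hk hi c v hv hr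

end Pool.Agent.Results.MP_34631e_gt.Revolution
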